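import Mathlib

/-! Algebraic independence of two groups of functions. -/

set_option autoImplicit false

namespace Pool.Agent.K1H97.LW

open Set

section
variable {k L : Type*} [Field k] [Field L] [Algebra k L]

theorem isAlgebraic_adjoin_of_mem {S : Set L} {a : L} (ha : a ∈ IntermediateField.adjoin k S) :
    IsAlgebraic (Algebra.adjoin k S) a := by
  obtain ⟨b, hb, c, hc, rfl⟩ := IntermediateField.mem_adjoin_iff_div.1 ha
  rw [div_eq_mul_inv]
  exact (isAlgebraic_algebraMap (⟨b, hb⟩ : Algebra.adjoin k S)).mul
    (isAlgebraic_algebraMap (⟨c, hc⟩ : Algebra.adjoin k S)).inv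

theorem alg_mono {R R' A : Type*} [CommRing R] [CommRing R'] [CommRing A] [Algebra R A] [Algebra R' A]
    {a : A} (hsub : ∀ b : R, ∃ b' : R', algebraMap R' A b' = algebraMap R A b)
    (hR' : Function.Injective (algebraMap R' A)) (hR : Function.Injective (algebraMap R A))
    (ha : IsAlgebraic R a) : IsAlgebraic R' a := by
  choose f hf using hsub
  obtain ⟨φ, hφ0⟩ : ∃ φ : R →+* R', ∀ x, φ x = f x :=
    ⟨{ toFun := f
       map_one' := hR' (by rw [hf, map_one, map_one])
       map_mul' := fun x y => hR' (by rw [hf, map_mul, map_mul, hf, hf])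
       map_zero' := hR' (by rw [hf, map_zero, map_zero])
       map_add' := fun x y => hR' (by rw [hf, map_add, map_add, hf, hf]) }, fun _ => rfl⟩
  have hφ : Function.Injective φ := by
    intro x y hxy
    apply hR
    rw [← hf x, ← hf y, ← hφ0, ← hφ0, hxy]
  have hcomp : (algebraMap R' A).comp φ = algebraMap R A :=
    RingHom.ext fun x => by rw [RingHom.comp_apply, hφ0, hf]
  obtain ⟨p, hp, hpa⟩ := ha
  refine ⟨p.map φ, (Polynomial.map_ne_zero_iff hφ).2 hp, ?_⟩
  rw [Polynomial.aeval_def, Polynomial.eval₂_map, hcomp]
  rw [Polynomial.aeval_def] at hpa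
  exact hpa

theorem isAlgebraic_adjoin_mono (M : IntermediateField k L) {S : Set L} {a : L}
    (ha : IsAlgebraic (Algebra.adjoin k S) a) : IsAlgebraic (Algebra.adjoin M S) a := by
  have hle : ∀ b ∈ Algebra.adjoin k S, b ∈ Algebra.adjoin M S := by
    intro b hb
    induction hb using Algebra.adjoin_induction with
    | mem x hx => exact Algebra.subset_adjoin hx
    | algebraMap r =>
      have h1 := (Algebra.adjoin M S).algebraMap_mem (algebraMap k M r)
      rwa [← IsScalarTower.algebraMap_apply k M L r] at h1
    | add x y _ _ hx hy => exact add_mem hx hy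
    | mul x y _ _ hx hy => exact mul_mem hx hy
  refine alg_mono (fun b => ?_) (FaithfulSMul.algebraMap_injective _ L)
    (FaithfulSMul.algebraMap_injective _ L) ha
  exact ⟨⟨(b : L), hle b b.2⟩, rfl⟩

theorem indep_over (M : IntermediateField k L) {r h : ℕ} (x : Fin r → L) (u : Fin h → L)
    (hx : AlgebraicIndependent M x) (hu : ∀ l, u l ∈ IntermediateField.adjoin k (Set.range x))
    (hui : AlgebraicIndependent k u) : AlgebraicIndependent M u := by
  have hxk : AlgebraicIndependent k x := hx.restrictScalars (algebraMap k M).injective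
  set Mk := AlgebraicIndependent.matroid k L with hMk
  set MM := AlgebraicIndependent.matroid M L with hMM
  have ixM : MM.Indep (range x) := AlgebraicIndependent.matroid_indep_iff.2 hx.to_subtype_range
  have ixk : Mk.Indep (range x) := AlgebraicIndependent.matroid_indep_iff.2 hxk.to_subtype_range
  have iuk : Mk.Indep (range u) := AlgebraicIndependent.matroid_indep_iff.2 hui.to_subtype_range
  obtain ⟨v, hv, huv⟩ := iuk.subset_isBasis_of_subset (X := range u ∪ range x) subset_union_left
    (by rw [hMk, AlgebraicIndependent.matroid_e]; exact subset_univ _)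
  have hcl : range u ⊆ Mk.closure (range x) := by
    rintro _ ⟨l, rfl⟩
    rw [hMk, AlgebraicIndependent.matroid_closure_eq]
    exact isAlgebraic_adjoin_of_mem (hu l)
  have hxcl : range x ⊆ Mk.closure (range x) :=
    Mk.subset_closure (range x) (by rw [hMk, AlgebraicIndependent.matroid_e]; exact subset_univ _)
  have e1 : Mk.eRk (range u ∪ range x) = (range x).encard := by
    rw [← ixk.eRk_eq_encard]
    apply le_antisymm
    · rw [← Mk.eRk_closure_eq (range x)]
      exact Mk.eRk_mono (union_subset hcl hxcl)
    · exact Mk.eRk_mono subset_union_right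
  have e2 : v.encard = (range x).encard := by rw [hv.encard_eq_eRk, e1]
  have hvfin : v.Finite := by
    rw [← Set.encard_lt_top_iff, e2, Set.encard_lt_top_iff]
    exact Set.finite_range x
  have hxv : range x ⊆ MM.closure v := by
    intro a ha
    have h1 : a ∈ Mk.closure v := hv.subset_closure (Or.inr ha)
    rw [hMk, AlgebraicIndependent.matroid_closure_eq] at h1
    rw [hMM, AlgebraicIndependent.matroid_closure_eq]
    exact isAlgebraic_adjoin_mono M h1
  have e3 : MM.eRk v = v.encard := by
    apply le_antisymm (MM.eRk_le_encard v)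
    rw [e2, ← ixM.eRk_eq_encard, ← MM.eRk_closure_eq v]
    exact MM.eRk_mono hxv
  have iv : MM.Indep v := (Matroid.indep_iff_eRk_eq_encard_of_finite hvfin).2 e3
  have iu : MM.Indep (range u) := iv.subset huv
  exact (algebraicIndependent_subtype_range hui.injective).1
    (AlgebraicIndependent.matroid_indep_iff.1 iu)

theorem tower {K S A : Type*} [Field K] [Field S] [Field A] [Algebra K S] [Algebra S A] [Algebra K A]
    [IsScalarTower K S A] {ι ι' : Type*} {y : ι → A} {w : ι' → A} (hy : AlgebraicIndependent K y)
    (hyS : Set.range y ⊆ Set.range (algebraMap S A)) (hw : AlgebraicIndependent S w) :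
    AlgebraicIndependent K (Sum.elim w y) :=
  hy.sumElim_of_tower hyS hw

/-- algebraic independence of two groups of functions -/
theorem inw (M : IntermediateField k L) (r h e : ℕ) (x : Fin r → L) (u : Fin h → L)
    (g : Fin e → L) (hx : AlgebraicIndependent M x)
    (hu : ∀ l, u l ∈ IntermediateField.adjoin k (Set.range x)) (hui : AlgebraicIndependent k u)
    (hg : ∀ l, g l ∈ M) (hgi : AlgebraicIndependent k g) :
    AlgebraicIndependent k (fun i : Fin (e + h) => Fin.append g u i) := by
  have h1 := indep_over M x u hx hu hui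
  have h0 : Set.range g ⊆ Set.range (algebraMap M L) := by
    rintro _ ⟨l, rfl⟩
    exact ⟨⟨g l, hg l⟩, rfl⟩
  have h2 : AlgebraicIndependent k (Sum.elim u g) := tower hgi h0 h1
  have h3 := h2.comp (fun i : Fin (e + h) => Sum.swap (finSumFinEquiv.symm i))
    (fun i j hij => finSumFinEquiv.symm.injective ((Equiv.sumComm _ _).injective hij))
  have h4 : (Sum.elim u g) ∘ (fun i : Fin (e + h) => Sum.swap (finSumFinEquiv.symm i)) =
      fun i : Fin (e + h) => Fin.append g u i := by
    funext i
    induction i using Fin.addCases with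
    | left l => simp
    | right l => simp
  rw [← h4]
  exact h3

/-- powers of algebraically independent elements -/
theorem pow_ind {e N : ℕ} {g : Fin e → L} (hg : AlgebraicIndependent k g) (hN : 0 < N) :
    AlgebraicIndependent k (fun l => g l ^ N) := by
  have h1 := hg.polynomial_aeval_of_transcendental
    (f := fun _ => (Polynomial.X : Polynomial k) ^ N)
    (fun _ => (Polynomial.transcendental_X k).pow hN)
  simpa using h1

end

end Pool.Agent.K1H97.LW
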