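import Pool.Agent.K1H17.LW.Defs
import Pool.Agent.K1H97.LW.Core

/-! Algebraic independence of two groups of functions: the piece INW. -/

set_option autoImplicit false

namespace Pool.Agent.K1H97.LW

theorem t_INW : Pool.Agent.K1H17.LW.S_INW := by
  intro k L _ _ _ M r h e x u g hx hu hui hg hgi
  exact inw M r h e x u g hx hu hui hg hgi

end Pool.Agent.K1H97.LW
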